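import Pool.Agent.Helper59.OT.Num

/-!
# The lattice `ℤ[θ]` is discrete and cocompact in `ℝ × ℂ × ℂ`
-/

open scoped Manifold ContDiff Topology
open Set Filter

noncomputable section

namespace HolPH.OT

open HolPH.OT.Num

/-- `5 ρ^i` times the `i`-th coordinate of `x` in the basis `θ^i`. -/
def SS (i : ℕ) (x : C3) : ℂ :=
  x.1 + zeta ^ (4 * i) * x.2.1 + zeta ^ i * (starRingEnd ℂ) x.2.1 +
    zeta ^ (3 * i) * x.2.2 + zeta ^ (2 * i) * (starRingEnd ℂ) x.2.2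

/-- The `i`-th coordinate of `x` in the basis `θ^i`. -/
def coef (i : ℕ) (x : C3) : ℝ := (SS i x).re / (5 * rho ^ i)

theorem norm_zeta_pow (n : ℕ) : ‖zeta ^ n‖ = 1 := by rw [norm_pow, norm_zeta, one_pow]

theorem abs_coef_le (i : ℕ) (x : C3) : |coef i x| ≤ ‖x‖ := by
  have h1 : ‖x.1‖ ≤ ‖x‖ := norm_fst_le x
  have h2 : ‖x.2.1‖ ≤ ‖x‖ := (norm_fst_le x.2).trans (norm_snd_le x)
  have h3 : ‖x.2.2‖ ≤ ‖x‖ := (norm_snd_le x.2).trans (norm_snd_le x)
  have h4 : |(SS i x).re| ≤ 5 * ‖x‖ := by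
    refine (Complex.abs_re_le_norm _).trans ?_
    unfold SS
    refine (norm_add_le _ _).trans ?_
    have e1 := norm_add_le (x.1 + zeta ^ (4 * i) * x.2.1 + zeta ^ i * (starRingEnd ℂ) x.2.1)
      (zeta ^ (3 * i) * x.2.2)
    have e2 := norm_add_le (x.1 + zeta ^ (4 * i) * x.2.1) (zeta ^ i * (starRingEnd ℂ) x.2.1)
    have e3 := norm_add_le (x.1) (zeta ^ (4 * i) * x.2.1)
    rw [norm_mul, norm_zeta_pow, one_mul] at e1 e2 e3
    rw [RCLike.norm_conj] at e2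
    rw [norm_mul, norm_zeta_pow, one_mul, RCLike.norm_conj]
    linarith
  have h5 : (1 : ℝ) ≤ rho ^ i := one_le_pow₀ one_lt_rho.le
  unfold coef
  rw [abs_div, div_le_iff₀ (by positivity)]
  have h6 : |5 * rho ^ i| = 5 * rho ^ i := abs_of_pos (by positivity)
  rw [h6]
  have := norm_nonneg x
  nlinarith [h4, h5]

theorem zeta_pow_mod (n : ℕ) : zeta ^ n = zeta ^ (n % 5) := by
  conv_lhs => rw [← Nat.div_add_mod n 5, pow_add, pow_mul, zeta_pow, one_pow, one_mul]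

theorem char_sum (i j : Fin 5) :
    1 + zeta ^ (4 * (i : ℕ) + j) + zeta ^ ((i : ℕ) + 4 * j) + zeta ^ (3 * (i : ℕ) + 2 * j) +
      zeta ^ (2 * (i : ℕ) + 3 * j) = if i = j then 5 else 0 := by
  have h := phi5
  rw [zeta_pow_mod (4 * (i : ℕ) + j), zeta_pow_mod ((i : ℕ) + 4 * j),
    zeta_pow_mod (3 * (i : ℕ) + 2 * j), zeta_pow_mod (2 * (i : ℕ) + 3 * j)]
  fin_cases i <;> fin_cases j <;> simp <;> first | linear_combination h | norm_num

/-- Real combinations of the `θ^i`. -/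
def comb (c : Fin 5 → ℝ) : C3 := ∑ i, c i • theta ^ (i : ℕ)

theorem comb_fst (c : Fin 5 → ℝ) : (comb c).1 = ∑ i, (c i : ℂ) * (rho : ℂ) ^ (i : ℕ) := by
  unfold comb
  rw [Prod.fst_sum]
  rfl

theorem comb_snd_fst (c : Fin 5 → ℝ) :
    (comb c).2.1 = ∑ i, (c i : ℂ) * (rho : ℂ) ^ (i : ℕ) * zeta ^ (i : ℕ) := by
  unfold comb
  rw [Prod.snd_sum, Prod.fst_sum]
  refine Finset.sum_congr rfl fun i _ => ?_
  change (c i : ℂ) * ((rho : ℂ) * zeta) ^ (i : ℕ) = _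
  rw [mul_pow]; ring

theorem comb_snd_snd (c : Fin 5 → ℝ) :
    (comb c).2.2 = ∑ i, (c i : ℂ) * (rho : ℂ) ^ (i : ℕ) * zeta ^ (2 * (i : ℕ)) := by
  unfold comb
  rw [Prod.snd_sum, Prod.snd_sum]
  refine Finset.sum_congr rfl fun i _ => ?_
  change (c i : ℂ) * ((rho : ℂ) * zeta ^ 2) ^ (i : ℕ) = _
  rw [mul_pow, ← pow_mul]; ring

theorem SS_comb (i : Fin 5) (c : Fin 5 → ℝ) :
    SS i (comb c) = 5 * (rho : ℂ) ^ (i : ℕ) * c i := by
  unfold SS
  rw [comb_fst, comb_snd_fst, comb_snd_snd, map_sum, map_sum, Finset.mul_sum, Finset.mul_sum,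
    Finset.mul_sum, Finset.mul_sum, ← Finset.sum_add_distrib, ← Finset.sum_add_distrib,
    ← Finset.sum_add_distrib, ← Finset.sum_add_distrib]
  have h : ∀ j : Fin 5, (c j : ℂ) * (rho : ℂ) ^ (j : ℕ) +
      zeta ^ (4 * (i : ℕ)) * ((c j : ℂ) * (rho : ℂ) ^ (j : ℕ) * zeta ^ (j : ℕ)) +
      zeta ^ (i : ℕ) * (starRingEnd ℂ) ((c j : ℂ) * (rho : ℂ) ^ (j : ℕ) * zeta ^ (j : ℕ)) +
      zeta ^ (3 * (i : ℕ)) * ((c j : ℂ) * (rho : ℂ) ^ (j : ℕ) * zeta ^ (2 * (j : ℕ))) +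
      zeta ^ (2 * (i : ℕ)) *
        (starRingEnd ℂ) ((c j : ℂ) * (rho : ℂ) ^ (j : ℕ) * zeta ^ (2 * (j : ℕ))) =
      (c j : ℂ) * (rho : ℂ) ^ (j : ℕ) * (if i = j then 5 else 0) := by
    intro j
    rw [← char_sum i j]
    simp only [map_mul, map_pow, Complex.conj_ofReal, conj_zeta]
    have e1 : zeta ^ (2 * (i : ℕ)) * (zeta ^ 4) ^ (2 * (j : ℕ)) = zeta ^ (2 * (i : ℕ) + 3 * j) := by
      rw [← pow_mul, ← pow_add, zeta_pow_mod, zeta_pow_mod (2 * (i : ℕ) + 3 * j)]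
      congr 1
      omega
    have e2 : zeta ^ (i : ℕ) * (zeta ^ 4) ^ (j : ℕ) = zeta ^ ((i : ℕ) + 4 * j) := by
      rw [← pow_mul, ← pow_add]
    rw [pow_add, ← e1, ← e2, pow_add]
    ring
  rw [Finset.sum_congr rfl fun j _ => h j]
  simp only [mul_ite, mul_zero, Finset.sum_ite_eq, Finset.mem_univ, if_true]
  ring

theorem coef_comb (i : Fin 5) (c : Fin 5 → ℝ) : coef i (comb c) = c i := by
  unfold coef
  rw [SS_comb]
  have h : (5 * (rho : ℂ) ^ (i : ℕ) * c i).re = 5 * rho ^ (i : ℕ) * c i := by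
    have : (5 * (rho : ℂ) ^ (i : ℕ) * c i) = ((5 * rho ^ (i : ℕ) * c i : ℝ) : ℂ) := by
      push_cast; rfl
    rw [this, Complex.ofReal_re]
  rw [h]
  have hr : (0 : ℝ) < 5 * rho ^ (i : ℕ) := by
    have := rho_pos
    positivity
  exact mul_div_cancel_left₀ _ hr.ne'

theorem comb_int (c : Fin 5 → ℤ) :
    comb (fun i => (c i : ℝ)) = ∑ i, (c i : C3) * theta ^ (i : ℕ) := by
  unfold comb
  refine Finset.sum_congr rfl fun i _ => ?_
  rw [← zsmul_eq_mul, Int.cast_smul_eq_zsmul]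

theorem Lat_finite (R : ℝ) : {x : C3 | x ∈ Lat ∧ ‖x‖ ≤ R}.Finite := by
  have h1 := (Set.finite_Icc (fun _ : Fin 5 => -⌈R⌉) (fun _ : Fin 5 => ⌈R⌉)).image
    (fun c : Fin 5 → ℤ => ∑ i, (c i : C3) * theta ^ (i : ℕ))
  refine h1.subset ?_
  rintro x ⟨hx, hxR⟩
  obtain ⟨c, rfl⟩ := mem_Lat.1 hx
  refine ⟨c, ?_, rfl⟩
  have h2 : ∀ i, |(c i : ℝ)| ≤ R := by
    intro i
    have := (abs_coef_le i (comb (fun i => (c i : ℝ))))
    rw [coef_comb, comb_int] at this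
    exact this.trans hxR
  have h3 : ∀ i, |(c i : ℝ)| ≤ (⌈R⌉ : ℝ) := fun i => (h2 i).trans (Int.le_ceil R)
  constructor
  · intro i
    have := neg_le_of_abs_le (h3 i)
    exact_mod_cast this
  · intro i
    have := (le_abs_self _).trans (h3 i)
    exact_mod_cast this

/-- Every `t ∈ ℝ × ℂ × ℂ` is the combination of the `θ^i` with coefficients `coef i t`. -/
theorem comb_coef {t : C3} (ht : t.1.im = 0) : comb (fun i => coef i t) = t := by
  have ht1 : t.1 = (t.1.re : ℂ) := Complex.ext rfl (by simpa using ht)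
  have hconj : ∀ n : ℕ, (starRingEnd ℂ) (zeta ^ n) = zeta ^ (4 * n) := by
    intro n
    rw [map_pow, conj_zeta, ← pow_mul]
  have hreal : ∀ i : ℕ, ((coef i t : ℝ) : ℂ) * (rho : ℂ) ^ i = SS i t / 5 := by
    intro i
    have h1 : (starRingEnd ℂ) (SS i t) = SS i t := by
      unfold SS
      simp only [map_add, map_mul, hconj, Complex.conj_conj]
      rw [show (starRingEnd ℂ) t.1 = t.1 by rw [ht1, Complex.conj_ofReal]]
      rw [zeta_pow_mod (4 * (4 * i)), zeta_pow_mod (4 * (3 * i)), zeta_pow_mod (4 * (2 * i)),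
        zeta_pow_mod (4 * i), zeta_pow_mod (3 * i), zeta_pow_mod (2 * i), zeta_pow_mod i]
      have e1 : (4 * (4 * i)) % 5 = i % 5 := by omega
      have e2 : (4 * (3 * i)) % 5 = (2 * i) % 5 := by omega
      have e3 : (4 * (2 * i)) % 5 = (3 * i) % 5 := by omega
      rw [e1, e2, e3]
      ring
    have h2 : SS i t = ((SS i t).re : ℂ) := (Complex.conj_eq_iff_re.1 h1).symm
    have hr : (rho : ℂ) ^ i ≠ 0 := by
      have := rho_pos
      exact_mod_cast (pow_pos this i).ne'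
    unfold coef
    rw [h2]
    push_cast
    simp only [Complex.ofReal_re]
    field_simp
  have g1 := phi5
  have g2 : 1 + zeta ^ 2 + zeta ^ 4 + zeta ^ 6 + zeta ^ 8 = 0 := by
    rw [zeta_pow_mod 6, zeta_pow_mod 8]; norm_num; linear_combination phi5
  have g3 : 1 + zeta ^ 3 + zeta ^ 6 + zeta ^ 9 + zeta ^ 12 = 0 := by
    rw [zeta_pow_mod 6, zeta_pow_mod 9, zeta_pow_mod 12]; norm_num; linear_combination phi5
  have g4 : 1 + zeta ^ 4 + zeta ^ 8 + zeta ^ 12 + zeta ^ 16 = 0 := by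
    rw [zeta_pow_mod 8, zeta_pow_mod 12, zeta_pow_mod 16]; norm_num; linear_combination phi5
  have g5 : 1 + zeta ^ 5 + zeta ^ 10 + zeta ^ 15 + zeta ^ 20 = 5 := by
    rw [zeta_pow_mod 5, zeta_pow_mod 10, zeta_pow_mod 15, zeta_pow_mod 20]; norm_num
  have g6 : 1 + zeta ^ 6 + zeta ^ 12 + zeta ^ 18 + zeta ^ 24 = 0 := by
    rw [zeta_pow_mod 6, zeta_pow_mod 12, zeta_pow_mod 18, zeta_pow_mod 24]; norm_num
    linear_combination phi5
  have f3 : ((3 : Fin 5) : ℕ) = 3 := rfl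
  have f4 : ((4 : Fin 5) : ℕ) = 4 := rfl
  have hsum : ∀ k : ℕ, ∑ i : Fin 5, SS i t / 5 * zeta ^ (k * (i : ℕ)) =
      (t.1 * (1 + zeta ^ k + zeta ^ (2 * k) + zeta ^ (3 * k) + zeta ^ (4 * k)) +
        t.2.1 * (1 + zeta ^ (k + 4) + zeta ^ (2 * (k + 4)) + zeta ^ (3 * (k + 4)) +
          zeta ^ (4 * (k + 4))) +
        (starRingEnd ℂ) t.2.1 * (1 + zeta ^ (k + 1) + zeta ^ (2 * (k + 1)) +
          zeta ^ (3 * (k + 1)) + zeta ^ (4 * (k + 1))) +
        t.2.2 * (1 + zeta ^ (k + 3) + zeta ^ (2 * (k + 3)) + zeta ^ (3 * (k + 3)) +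
          zeta ^ (4 * (k + 3))) +
        (starRingEnd ℂ) t.2.2 * (1 + zeta ^ (k + 2) + zeta ^ (2 * (k + 2)) +
          zeta ^ (3 * (k + 2)) + zeta ^ (4 * (k + 2)))) / 5 := by
    intro k
    unfold SS
    simp only [Fin.sum_univ_five, Fin.val_zero, Fin.val_one, Fin.val_two, f3, f4]
    ring
  refine Prod.ext ?_ (Prod.ext ?_ ?_)
  · rw [comb_fst]
    simp only [hreal]
    have h := hsum 0
    simp only [zero_mul, pow_zero, mul_one, zero_add, mul_zero] at h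
    norm_num at h
    rw [h]
    linear_combination t.2.1 / 5 * g4 + (starRingEnd ℂ) t.2.1 / 5 * g1 + t.2.2 / 5 * g3 +
      (starRingEnd ℂ) t.2.2 / 5 * g2
  · rw [comb_snd_fst]
    simp only [hreal]
    have h := hsum 1
    simp only [one_mul, mul_one] at h
    norm_num at h
    rw [h]
    linear_combination t.1 / 5 * g1 + t.2.1 / 5 * g5 + (starRingEnd ℂ) t.2.1 / 5 * g2 +
      t.2.2 / 5 * g4 + (starRingEnd ℂ) t.2.2 / 5 * g3
  · rw [comb_snd_snd]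
    simp only [hreal]
    have h := hsum 2
    norm_num at h
    rw [h]
    linear_combination t.1 / 5 * g2 + t.2.1 / 5 * g6 + (starRingEnd ℂ) t.2.1 / 5 * g3 +
      t.2.2 / 5 * g5 + (starRingEnd ℂ) t.2.2 / 5 * g4

/-- cocompactness -/
theorem Lat_cover : ∃ D : ℝ, 0 < D ∧ ∀ t : C3, t.1.im = 0 → ∃ a ∈ Lat, ‖t - a‖ ≤ D := by
  refine ⟨∑ i : Fin 5, ‖theta ^ (i : ℕ)‖ + 1, by positivity, fun t ht => ?_⟩
  refine ⟨comb (fun i => ((round (coef i t) : ℤ) : ℝ)), ?_, ?_⟩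
  · rw [comb_int (fun i => round (coef i t))]
    exact mem_Lat.2 ⟨_, rfl⟩
  · have e : t - comb (fun i => ((round (coef i t) : ℤ) : ℝ)) =
        ∑ i : Fin 5, (coef i t - ((round (coef i t) : ℤ) : ℝ)) • theta ^ (i : ℕ) := by
      have e1 : t - comb (fun i => ((round (coef i t) : ℤ) : ℝ)) =
          comb (fun i => coef i t) - comb (fun i => ((round (coef i t) : ℤ) : ℝ)) := by
        rw [comb_coef ht]
      rw [e1]
      unfold comb
      rw [← Finset.sum_sub_distrib]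
      exact Finset.sum_congr rfl fun i _ => (sub_smul _ _ _).symm
    rw [e]
    refine (norm_sum_le _ _).trans ?_
    refine (Finset.sum_le_sum (g := fun i : Fin 5 => ‖theta ^ (i : ℕ)‖) fun i _ => ?_).trans
      (by linarith)
    rw [norm_smul]
    have h1 : ‖coef i t - ((round (coef i t) : ℤ) : ℝ)‖ ≤ 1 := by
      rw [Real.norm_eq_abs]
      exact (abs_sub_round _).trans (by norm_num)
    calc ‖coef i t - ((round (coef i t) : ℤ) : ℝ)‖ * ‖theta ^ (i : ℕ)‖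
        ≤ 1 * ‖theta ^ (i : ℕ)‖ := mul_le_mul_of_nonneg_right h1 (norm_nonneg _)
      _ = _ := one_mul _

end HolPH.OT
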