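import Pool.Agent.Helper49.OT.Grp
import Pool.Agent.Helper49.OT.Lat1

/-!
# The Oeljeklaus–Toma threefold is a compact connected complex manifold
-/

open scoped Manifold ContDiff Topology
open Set Filter

noncomputable section

namespace HolPH.OT

instance instPD : ProperlyDiscontinuousSMul Gam X := properlyDiscontinuous Lat_finite

theorem contMDiff_val_comp_iff {E' H' : Type*} [NormedAddCommGroup E'] [NormedSpace ℂ E']
    [TopologicalSpace H'] {I' : ModelWithCorners ℂ E' H'} {A : Type*}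
    [TopologicalSpace A] [ChartedSpace H' A] (f : A → X) :
    ContMDiff I' I3 ω (Subtype.val ∘ f) ↔ ContMDiff I' I3 ω f := by
  refine forall_congr' fun x => ?_
  exact ChartedSpace.liftPropWithinAt_subtypeVal_comp_iff (U := X) f univ x

/-- affine maps of `ℍ × ℂ × ℂ` are holomorphic -/
theorem contMDiff_affine (c a : C3) (h : ∀ x : X, c * (x : C3) + a ∈ X) :
    ContMDiff I3 I3 ω (fun x : X => (⟨c * (x : C3) + a, h x⟩ : X)) := by
  rw [← contMDiff_val_comp_iff]
  have h1 : ContMDiff I3 I3 ω (fun x : C3 => c * x + a) := by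
    apply ContDiff.contMDiff
    exact (contDiff_const.mul contDiff_id).add contDiff_const
  exact h1.comp contMDiff_subtype_val

theorem contMDiff_smul (g : Gam) : ContMDiff I3 I3 ω (fun x : X => g • x) :=
  contMDiff_affine _ _ (smul_mem g)

theorem contMDiff_mulv (m : ℤ) : ContMDiff I3 I3 ω (mulv m) := by
  have h : ∀ x : X, ((v ^ m : C3ˣ) : C3) * (x : C3) + 0 ∈ X := by
    intro x; rw [add_zero]; exact mulv_mem m x
  have h1 := contMDiff_affine ((v ^ m : C3ˣ) : C3) 0 h
  convert h1 using 2 with x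
  apply Subtype.ext
  simp

instance instMfd : IsManifold I3 ω M :=
  Pool.Agent.Helper77.QuotMfd.quotient_isManifold I3 ω contMDiff_smul

theorem pr_localDiffeomorph : IsLocalDiffeomorph I3 I3 ω pr :=
  Pool.Agent.Helper77.QuotMfd.quotient_isLocalDiffeomorph I3 ω contMDiff_smul

theorem pr_covering : IsCoveringMap pr :=
  (isQuotientCoveringMap_quotientMk_of_properlyDiscontinuousSMul (G := Gam) (E := X)).isCoveringMap

theorem pr_continuous : Continuous pr := pr_covering.continuous

instance : ConnectedSpace X := by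
  have h : IsConnected (X : Set C3) := convex_X.isConnected ⟨(Complex.I, 0, 0), by simp [mem_X]⟩
  exact isConnected_iff_connectedSpace.1 h

instance instConn : ConnectedSpace M := pr_surjective.connectedSpace pr_continuous

theorem isCompact_box (R : ℝ) :
    IsCompact {x : X | 1 ≤ (x : C3).1.im ∧ (x : C3).1.im ≤ U1 ∧ ‖(x : C3)‖ ≤ R} := by
  rw [Subtype.isCompact_iff]
  have h : (Subtype.val '' {x : X | 1 ≤ (x : C3).1.im ∧ (x : C3).1.im ≤ U1 ∧ ‖(x : C3)‖ ≤ R})
      = {x : C3 | 1 ≤ x.1.im ∧ x.1.im ≤ U1} ∩ Metric.closedBall 0 R := by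
    ext x
    constructor
    · rintro ⟨y, ⟨h1, h2, h3⟩, rfl⟩
      exact ⟨⟨h1, h2⟩, by simpa using h3⟩
    · rintro ⟨⟨h1, h2⟩, h3⟩
      exact ⟨⟨x, by rw [mem_X]; linarith⟩, ⟨h1, h2, by simpa using h3⟩, rfl⟩
  rw [h]
  refine IsCompact.inter_left (isCompact_closedBall _ _) ?_
  have hc : Continuous fun x : C3 => x.1.im := Complex.continuous_im.comp continuous_fst
  exact (isClosed_le continuous_const hc).inter (isClosed_le hc continuous_const)

theorem exists_box : ∃ R : ℝ, ∀ x : X, ∃ g : Gam, 1 ≤ ((g • x : X) : C3).1.im ∧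
    ((g • x : X) : C3).1.im ≤ U1 ∧ ‖((g • x : X) : C3)‖ ≤ R := by
  obtain ⟨D, -, hD⟩ := Lat_cover
  refine ⟨D + U1, fun x => ?_⟩
  have hx : 0 < (x : C3).1.im := x.2
  obtain ⟨n, hn1, hn2⟩ := exists_mem_Ico_zpow (inv_pos.2 hx) one_lt_U1'
  -- `U1 ^ n ≤ y⁻¹ < U1 ^ (n+1)`
  set n' : ℤ := n + 1 with hn'
  have h1 : 1 ≤ U1 ^ n' * (x : C3).1.im := by
    have := mul_le_mul_of_nonneg_right hn2.le hx.le
    rwa [inv_mul_cancel₀ hx.ne'] at this
  have h2 : U1 ^ n' * (x : C3).1.im ≤ U1 := by
    rw [hn', zpow_add_one₀ U1_pos.ne']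
    have h3 := mul_le_mul_of_nonneg_right hn1 hx.le
    rw [inv_mul_cancel₀ hx.ne'] at h3
    calc U1 ^ n * U1 * (x : C3).1.im = (U1 ^ n * (x : C3).1.im) * U1 := by ring
      _ ≤ 1 * U1 := mul_le_mul_of_nonneg_right h3 U1_pos.le
      _ = U1 := one_mul _
  set z : C3 := ((u ^ n' : C3ˣ) : C3) * x with hz
  have hzim : z.1.im = U1 ^ n' * (x : C3).1.im := by
    have := smul_im ⟨n', 0⟩ x
    simpa [hz] using this
  set t : C3 := z - (((z.1.im : ℝ) : ℂ) * Complex.I, 0, 0) with ht
  have htim : t.1.im = 0 := by simp [ht]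
  obtain ⟨a, ha, hta⟩ := hD t htim
  refine ⟨⟨n', ⟨-a, neg_mem ha⟩⟩, ?_, ?_, ?_⟩
  · rw [smul_im]; exact h1
  · rw [smul_im]; exact h2
  · have h4 : ((((⟨n', ⟨-a, neg_mem ha⟩⟩ : Gam) • x : X)) : C3)
        = (t - a) + (((z.1.im : ℝ) : ℂ) * Complex.I, 0, 0) := by
      rw [smul_coe, ht]
      change z + -a = _
      ring
    rw [h4]
    refine (norm_add_le _ _).trans (add_le_add hta ?_)
    rw [Prod.norm_def, Prod.norm_def]
    simp only [norm_zero, max_self, norm_mul, Complex.norm_I, mul_one, Complex.norm_real]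
    rw [max_eq_left (norm_nonneg _), hzim, Real.norm_of_nonneg (by linarith)]
    exact h2

instance instCompact : CompactSpace M := by
  obtain ⟨R, hR⟩ := exists_box
  have h := (isCompact_box R).image pr_continuous
  refine ⟨h.of_isClosed_subset isClosed_univ ?_⟩
  rintro m -
  obtain ⟨x, rfl⟩ := pr_surjective m
  obtain ⟨g, hg⟩ := hR x
  exact ⟨g • x, hg, pr_smul g x⟩

/-- A map is holomorphic if its composition with a surjective local diffeomorphism is. -/
theorem contMDiff_of_comp {E' H' : Type*} [NormedAddCommGroup E'] [NormedSpace ℂ E']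
    [TopologicalSpace H'] {I' : ModelWithCorners ℂ E' H'} {A B N : Type*}
    [TopologicalSpace A] [ChartedSpace C3 A] [TopologicalSpace B] [ChartedSpace C3 B]
    [TopologicalSpace N] [ChartedSpace H' N] {π : A → B} (hπ : IsLocalDiffeomorph I3 I3 ω π)
    (hs : Function.Surjective π) {G : B → N} (hG : ContMDiff I3 I' ω (G ∘ π)) :
    ContMDiff I3 I' ω G := by
  intro b
  obtain ⟨a, rfl⟩ := hs b
  have h1 := (hπ a).localInverse_contMDiffAt
  have h2 := (hG.contMDiffAt (x := (hπ a).localInverse (π a))).comp (π a) h1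
  refine h2.congr_of_eventuallyEq ?_
  filter_upwards [(hπ a).localInverse_eventuallyEq_right] with y hy
  have hy' : π ((hπ a).localInverse y) = y := hy
  simp only [Function.comp_apply]
  rw [hy']

theorem contMDiff_fm (m : ℤ) : ContMDiff I3 I3 ω (fm m) :=
  contMDiff_of_comp pr_localDiffeomorph pr_surjective
    (pr_localDiffeomorph.contMDiff.comp (contMDiff_mulv m))

theorem mulv_mulv (m n : ℤ) (x : X) : mulv m (mulv n x) = mulv (m + n) x := by
  apply Subtype.ext
  simp only [mulv_coe]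
  rw [zpow_add, Units.val_mul, mul_assoc]

theorem mulv_zero (x : X) : mulv 0 x = x := by
  apply Subtype.ext
  simp

/-- the diffeomorphism `f` of `M` induced by multiplication by `v` -/
def F : M ≃ₘ^ω⟮I3, I3⟯ M where
  toFun := fm 1
  invFun := fm (-1)
  left_inv := by
    intro m
    obtain ⟨x, rfl⟩ := pr_surjective m
    rw [fm_pr, fm_pr, mulv_mulv]
    norm_num [mulv_zero]
  right_inv := by
    intro m
    obtain ⟨x, rfl⟩ := pr_surjective m
    rw [fm_pr, fm_pr, mulv_mulv]
    norm_num [mulv_zero]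
  contMDiff_toFun := contMDiff_fm 1
  contMDiff_invFun := contMDiff_fm (-1)

theorem F_apply (x : M) : F x = fm 1 x := rfl

theorem F_pr (x : X) : F (pr x) = pr (mulv 1 x) := rfl

theorem F_iterate (n : ℕ) (x : X) : (F : M → M)^[n] (pr x) = pr (mulv n x) := by
  induction n generalizing x with
  | zero => simp [mulv_zero]
  | succ n ih =>
    rw [Function.iterate_succ_apply, F_pr, ih, mulv_mulv]
    push_cast
    rfl

end HolPH.OT
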