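import Pool.Agent.Helper84.PH.Defs
import Pool.Agent.Helper77.QuotMfd

/-!
# The Oeljeklaus–Toma threefold of `ℤ[2^{1/5}]`

`M = (ℍ × ℂ × ℂ) / Γ` where `Γ = ℤ[θ] ⋊ ⟨u⟩` acts on `ℂ × ℂ × ℂ` (a commutative ring with the
coordinatewise operations) by `x ↦ u ^ n * x + a`.
-/

open scoped Manifold ContDiff Topology
open Set Filter

noncomputable section

namespace HolPH.OT

/-- The real number `2^{1/5}`. -/
def rho : ℝ := (2 : ℝ) ^ (1 / 5 : ℝ)

/-- `exp (2πi/5)`. -/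
def zeta : ℂ := Complex.exp (2 * Real.pi * Complex.I / 5)

/-- The three embeddings `(ρ, ρζ, ρζ²)` of the fifth root of `2`, as an element of the ring
`ℂ × ℂ × ℂ`. -/
def theta : C3 := ((rho : ℂ), (rho : ℂ) * zeta, (rho : ℂ) * zeta ^ 2)

theorem rho_pos : 0 < rho := Real.rpow_pos_of_pos (by norm_num) _

theorem rho_pow : rho ^ 5 = 2 := by
  rw [rho, ← Real.rpow_natCast, ← Real.rpow_mul (by norm_num)]
  norm_num

theorem zeta_pow : zeta ^ 5 = 1 := by
  rw [zeta, ← Complex.exp_nat_mul]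
  convert Complex.exp_two_pi_mul_I using 2
  push_cast
  ring

theorem rhoC_pow : (rho : ℂ) ^ 5 = 2 := by
  exact_mod_cast congrArg (fun x : ℝ => (x : ℂ)) rho_pow

theorem theta_pow : theta ^ 5 = 2 := by
  have h1 : (rho : ℂ) ^ 5 = 2 := rhoC_pow
  have h2 : ((rho : ℂ) * zeta) ^ 5 = 2 := by rw [mul_pow, h1, zeta_pow, mul_one]
  have h3 : ((rho : ℂ) * zeta ^ 2) ^ 5 = 2 := by
    rw [mul_pow, h1, ← pow_mul, mul_comm 2 5, pow_mul, zeta_pow, one_pow, mul_one]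
  refine Prod.ext ?_ (Prod.ext ?_ ?_)
  · exact h1
  · exact h2
  · exact h3

/-- The unit `u = 1 + θ + θ² + θ³ + θ⁴` (inverse `θ - 1`). -/
def u : C3ˣ where
  val := 1 + theta + theta ^ 2 + theta ^ 3 + theta ^ 4
  inv := theta - 1
  val_inv := by linear_combination theta_pow
  inv_val := by linear_combination theta_pow

/-- The unit `v = θ⁴ - θ³ + θ² - 1` (inverse `θ³ + θ² - 1`). -/
def v : C3ˣ where
  val := theta ^ 4 - theta ^ 3 + theta ^ 2 - 1
  inv := theta ^ 3 + theta ^ 2 - 1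
  val_inv := by linear_combination theta ^ 2 * theta_pow
  inv_val := by linear_combination theta ^ 2 * theta_pow

/-- The additive map `ℤ⁵ → ℂ³`, `c ↦ ∑ cᵢ θⁱ`. -/
def latHom : (Fin 5 → ℤ) →+ C3 where
  toFun c := ∑ i, (c i : C3) * theta ^ (i : ℕ)
  map_zero' := by simp
  map_add' c d := by simp [add_mul, Finset.sum_add_distrib]

/-- The lattice `ℤ[θ]` (of rank `5`, in `ℝ × ℂ × ℂ`). -/
def Lat : AddSubgroup C3 := latHom.range

theorem mem_Lat {x : C3} : x ∈ Lat ↔ ∃ c : Fin 5 → ℤ, ∑ i, (c i : C3) * theta ^ (i : ℕ) = x :=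
  Iff.rfl

theorem theta_mul_mem {x : C3} (hx : x ∈ Lat) : theta * x ∈ Lat := by
  obtain ⟨c, rfl⟩ := mem_Lat.1 hx
  refine mem_Lat.2 ⟨![2 * c 4, c 0, c 1, c 2, c 3], ?_⟩
  simp only [Fin.sum_univ_five, Matrix.cons_val]
  push_cast
  simp only [Fin.val_zero, Fin.val_one, Fin.val_two]
  have h3 : ((3 : Fin 5) : ℕ) = 3 := rfl
  have h4 : ((4 : Fin 5) : ℕ) = 4 := rfl
  rw [h3, h4]
  linear_combination (-(c 4 : C3)) * theta_pow

theorem theta_pow_mul_mem (n : ℕ) {x : C3} (hx : x ∈ Lat) : theta ^ n * x ∈ Lat := by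
  induction n with
  | zero => simpa using hx
  | succ n ih => rw [pow_succ', mul_assoc]; exact theta_mul_mem ih

theorem u_mul_mem {x : C3} (hx : x ∈ Lat) : (u : C3) * x ∈ Lat := by
  have h : (u : C3) * x = x + theta * x + theta ^ 2 * x + theta ^ 3 * x + theta ^ 4 * x := by
    change (1 + theta + theta ^ 2 + theta ^ 3 + theta ^ 4) * x = _
    ring
  rw [h]
  exact add_mem (add_mem (add_mem (add_mem hx (theta_mul_mem hx)) (theta_pow_mul_mem 2 hx))
    (theta_pow_mul_mem 3 hx)) (theta_pow_mul_mem 4 hx)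

theorem u_inv_mul_mem {x : C3} (hx : x ∈ Lat) : ((u⁻¹ : C3ˣ) : C3) * x ∈ Lat := by
  have h : ((u⁻¹ : C3ˣ) : C3) * x = theta * x - x := by
    change (theta - 1) * x = _
    ring
  rw [h]
  exact sub_mem (theta_mul_mem hx) hx

theorem v_mul_mem {x : C3} (hx : x ∈ Lat) : (v : C3) * x ∈ Lat := by
  have h : (v : C3) * x = theta ^ 4 * x - theta ^ 3 * x + theta ^ 2 * x - x := by
    change (theta ^ 4 - theta ^ 3 + theta ^ 2 - 1) * x = _
    ring
  rw [h]
  exact sub_mem (add_mem (sub_mem (theta_pow_mul_mem 4 hx) (theta_pow_mul_mem 3 hx))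
    (theta_pow_mul_mem 2 hx)) hx

theorem v_inv_mul_mem {x : C3} (hx : x ∈ Lat) : ((v⁻¹ : C3ˣ) : C3) * x ∈ Lat := by
  have h : ((v⁻¹ : C3ˣ) : C3) * x = theta ^ 3 * x + theta ^ 2 * x - x := by
    change (theta ^ 3 + theta ^ 2 - 1) * x = _
    ring
  rw [h]
  exact sub_mem (add_mem (theta_pow_mul_mem 3 hx) (theta_pow_mul_mem 2 hx)) hx

theorem zpow_mul_mem {w : C3ˣ} (h1 : ∀ x ∈ Lat, (w : C3) * x ∈ Lat)
    (h2 : ∀ x ∈ Lat, ((w⁻¹ : C3ˣ) : C3) * x ∈ Lat) (n : ℤ) {x : C3} (hx : x ∈ Lat) :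
    ((w ^ n : C3ˣ) : C3) * x ∈ Lat := by
  induction n with
  | zero => simpa using hx
  | succ n ih =>
    rw [zpow_add, zpow_one, mul_comm, mul_comm (w ^ (n : ℤ)) w, Units.val_mul]
    have := h1 _ ih
    rw [mul_comm, mul_assoc]
    exact this
  | pred n ih =>
    rw [zpow_sub, zpow_one, mul_comm, mul_comm (w ^ (-(n : ℤ))) w⁻¹, Units.val_mul]
    have := h2 _ ih
    rw [mul_comm, mul_assoc]
    exact this

theorem u_zpow_mul_mem (n : ℤ) {x : C3} (hx : x ∈ Lat) : ((u ^ n : C3ˣ) : C3) * x ∈ Lat :=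
  zpow_mul_mem (fun _ h => u_mul_mem h) (fun _ h => u_inv_mul_mem h) n hx

theorem v_zpow_mul_mem (n : ℤ) {x : C3} (hx : x ∈ Lat) : ((v ^ n : C3ˣ) : C3) * x ∈ Lat :=
  zpow_mul_mem (fun _ h => v_mul_mem h) (fun _ h => v_inv_mul_mem h) n hx

theorem Lat_im {x : C3} (hx : x ∈ Lat) : x.1.im = 0 := by
  obtain ⟨c, rfl⟩ := mem_Lat.1 hx
  simp only [Fin.sum_univ_five, theta]
  simp [← Complex.ofReal_pow, Complex.add_im]

/-! ### First coordinates -/

theorem one_lt_rho : 1 < rho := by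
  by_contra h
  have := pow_le_one₀ (n := 5) rho_pos.le (not_lt.1 h)
  rw [rho_pow] at this
  norm_num at this

/-- The real number `u₁`. -/
def U1 : ℝ := 1 + rho + rho ^ 2 + rho ^ 3 + rho ^ 4

/-- The real number `v₁`. -/
def V1 : ℝ := rho ^ 4 - rho ^ 3 + rho ^ 2 - 1

theorem U1_pos : 0 < U1 := by
  have := rho_pos
  unfold U1
  positivity

theorem V1_pos : 0 < V1 := by
  have h := one_lt_rho
  have h1 : 0 < rho - 1 := by linarith
  have h2 : V1 = (rho - 1) * (rho ^ 3 + rho + 1) := by unfold V1; ring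
  rw [h2]
  have := rho_pos
  positivity

theorem u_fst : (u : C3).1 = (U1 : ℂ) := by
  simp [u, theta, U1]

theorem v_fst : (v : C3).1 = (V1 : ℂ) := by
  simp [v, theta, V1]

theorem zpow_fst (w : C3ˣ) (n : ℤ) : ((w ^ n : C3ˣ) : C3).1 = (w : C3).1 ^ n := by
  have h := map_zpow (Units.map (RingHom.fst ℂ (ℂ × ℂ) : C3 →* ℂ)) w n
  have h' := congrArg (fun x : ℂˣ => (x : ℂ)) h
  rw [Units.val_zpow_eq_zpow_val] at h'
  exact h'

theorem zpow_snd_fst (w : C3ˣ) (n : ℤ) : ((w ^ n : C3ˣ) : C3).2.1 = (w : C3).2.1 ^ n := by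
  have h := map_zpow (Units.map (((RingHom.fst ℂ ℂ).comp (RingHom.snd ℂ (ℂ × ℂ))) : C3 →* ℂ)) w n
  have h' := congrArg (fun x : ℂˣ => (x : ℂ)) h
  rw [Units.val_zpow_eq_zpow_val] at h'
  exact h'

theorem zpow_snd_snd (w : C3ˣ) (n : ℤ) : ((w ^ n : C3ˣ) : C3).2.2 = (w : C3).2.2 ^ n := by
  have h := map_zpow (Units.map (((RingHom.snd ℂ ℂ).comp (RingHom.snd ℂ (ℂ × ℂ))) : C3 →* ℂ)) w n
  have h' := congrArg (fun x : ℂˣ => (x : ℂ)) h
  rw [Units.val_zpow_eq_zpow_val] at h'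
  exact h'

theorem u_zpow_fst (n : ℤ) : ((u ^ n : C3ˣ) : C3).1 = ((U1 ^ n : ℝ) : ℂ) := by
  rw [zpow_fst, u_fst]; push_cast; rfl

theorem v_zpow_fst (n : ℤ) : ((v ^ n : C3ˣ) : C3).1 = ((V1 ^ n : ℝ) : ℂ) := by
  rw [zpow_fst, v_fst]; push_cast; rfl

/-! ### The universal cover `ℍ × ℂ × ℂ` -/

/-- `ℍ × ℂ × ℂ`, as an open subset of `ℂ × ℂ × ℂ`. -/
def X : TopologicalSpace.Opens C3 :=
  ⟨{x | 0 < x.1.im}, isOpen_lt continuous_const (Complex.continuous_im.comp continuous_fst)⟩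

theorem mem_X {x : C3} : x ∈ X ↔ 0 < x.1.im := Iff.rfl

instance : LocallyCompactSpace X := X.isOpen.locallyCompactSpace

theorem convex_X : Convex ℝ (X : Set C3) := by
  intro x hx y hy a b ha hb hab
  change 0 < (a • x + b • y).1.im
  have h1 : (a • x + b • y).1.im = a * x.1.im + b * y.1.im := by simp
  rw [h1]
  have hx' : 0 < x.1.im := hx
  have hy' : 0 < y.1.im := hy
  rcases ha.eq_or_lt with h | h
  · subst h
    have : b = 1 := by linarith
    subst this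
    linarith
  · have := mul_pos h hx'
    have := mul_nonneg hb hy'.le
    linarith

instance : Nonempty X := ⟨⟨(Complex.I, 0, 0), by simp [mem_X]⟩⟩

theorem affine_im (m n : ℤ) (x : C3) {a : C3} (ha : a ∈ Lat) :
    (((v ^ m : C3ˣ) : C3) * ((u ^ n : C3ˣ) : C3) * x + a).1.im = V1 ^ m * U1 ^ n * x.1.im := by
  have h : (((v ^ m : C3ˣ) : C3) * ((u ^ n : C3ˣ) : C3) * x + a).1
      = ((V1 ^ m * U1 ^ n : ℝ) : ℂ) * x.1 + a.1 := by
    rw [Prod.fst_add, Prod.fst_mul, Prod.fst_mul, v_zpow_fst, u_zpow_fst]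
    push_cast
    ring
  rw [h, Complex.add_im, Lat_im ha, Complex.im_ofReal_mul, add_zero]

/-! ### The group and its action -/

/-- The group `Γ = ℤ[θ] ⋊ ⟨u⟩` of the affine maps `x ↦ u ^ n * x + a`. -/
@[ext] structure Gam where
  /-- the exponent of `u` -/
  n : ℤ
  /-- the translation part -/
  a : Lat

instance : Mul Gam := ⟨fun g h => ⟨g.n + h.n,
  ⟨((u ^ g.n : C3ˣ) : C3) * h.a, u_zpow_mul_mem g.n h.a.2⟩ + g.a⟩⟩

instance : One Gam := ⟨⟨0, 0⟩⟩

instance : Inv Gam := ⟨fun g => ⟨-g.n,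
  -⟨((u ^ (-g.n) : C3ˣ) : C3) * g.a, u_zpow_mul_mem (-g.n) g.a.2⟩⟩⟩

@[simp] theorem mul_n (g h : Gam) : (g * h).n = g.n + h.n := rfl
@[simp] theorem mul_a (g h : Gam) :
    ((g * h).a : C3) = ((u ^ g.n : C3ˣ) : C3) * h.a + g.a := rfl
@[simp] theorem one_n : (1 : Gam).n = 0 := rfl
@[simp] theorem one_a : ((1 : Gam).a : C3) = 0 := rfl
@[simp] theorem inv_n (g : Gam) : (g⁻¹).n = -g.n := rfl
@[simp] theorem inv_a (g : Gam) : ((g⁻¹).a : C3) = -(((u ^ (-g.n) : C3ˣ) : C3) * g.a) := rfl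

theorem Gam.ext' {g h : Gam} (h1 : g.n = h.n) (h2 : (g.a : C3) = h.a) : g = h :=
  Gam.ext h1 (Subtype.ext h2)

instance : Group Gam := Group.ofLeftAxioms
  (fun g h k => Gam.ext' (by simp [add_assoc]) (by
    simp only [mul_a, mul_n, zpow_add, Units.val_mul]; ring))
  (fun g => Gam.ext' (by simp) (by simp))
  (fun g => Gam.ext' (by simp) (by simp))

theorem smul_mem (g : Gam) (x : X) : ((u ^ g.n : C3ˣ) : C3) * x + g.a ∈ X := by
  have h := affine_im 0 g.n (x : C3) g.a.2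
  rw [zpow_zero, Units.val_one, one_mul, zpow_zero, one_mul] at h
  rw [mem_X, h]
  exact mul_pos (zpow_pos U1_pos _) x.2

instance : MulAction Gam X where
  smul g x := ⟨((u ^ g.n : C3ˣ) : C3) * x + g.a, smul_mem g x⟩
  one_smul x := Subtype.ext (by
    change ((u ^ (0 : ℤ) : C3ˣ) : C3) * x + (0 : C3) = x
    simp)
  mul_smul g h x := Subtype.ext (by
    change ((u ^ (g.n + h.n) : C3ˣ) : C3) * x + (((u ^ g.n : C3ˣ) : C3) * h.a + g.a)
      = ((u ^ g.n : C3ˣ) : C3) * (((u ^ h.n : C3ˣ) : C3) * x + h.a) + g.a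
    rw [zpow_add, Units.val_mul]
    ring)

@[simp] theorem smul_coe (g : Gam) (x : X) :
    ((g • x : X) : C3) = ((u ^ g.n : C3ˣ) : C3) * x + g.a := rfl

instance : ContinuousConstSMul Gam X where
  continuous_const_smul g := by
    refine Continuous.subtype_mk ?_ _
    exact (continuous_const.mul continuous_subtype_val).add continuous_const

/-! ### The diffeomorphism upstairs: multiplication by `v` -/

theorem mulv_mem (m : ℤ) (x : X) : ((v ^ m : C3ˣ) : C3) * x ∈ X := by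
  have h := affine_im m 0 (x : C3) (zero_mem Lat)
  rw [zpow_zero, Units.val_one, mul_one, zpow_zero, mul_one, add_zero] at h
  rw [mem_X, h]
  exact mul_pos (zpow_pos V1_pos _) x.2

/-- Multiplication by `v ^ m` on `ℍ × ℂ × ℂ`. -/
def mulv (m : ℤ) (x : X) : X := ⟨((v ^ m : C3ˣ) : C3) * x, mulv_mem m x⟩

@[simp] theorem mulv_coe (m : ℤ) (x : X) : ((mulv m x : X) : C3) = ((v ^ m : C3ˣ) : C3) * x := rfl

/-- Conjugation of `Γ` by multiplication by `v ^ m`. -/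
def conj (m : ℤ) (g : Gam) : Gam := ⟨g.n, ⟨((v ^ m : C3ˣ) : C3) * g.a, v_zpow_mul_mem m g.a.2⟩⟩

theorem mulv_smul (m : ℤ) (g : Gam) (x : X) : mulv m (g • x) = conj m g • mulv m x := by
  apply Subtype.ext
  simp only [mulv_coe, smul_coe, conj]
  ring

/-- The Oeljeklaus–Toma threefold. -/
abbrev M : Type := MulAction.orbitRel.Quotient Gam X

/-- The projection `ℍ × ℂ × ℂ → M`. -/
def pr (x : X) : M := Quotient.mk _ x

theorem pr_eq {x y : X} : pr x = pr y ↔ ∃ g : Gam, g • x = y := by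
  constructor
  · intro h
    obtain ⟨g, hg⟩ := Quotient.exact h.symm
    exact ⟨g, hg⟩
  · rintro ⟨g, rfl⟩
    exact (Quotient.sound ⟨g, rfl⟩ : (Quotient.mk _ (g • x) : M) = Quotient.mk _ x).symm

theorem pr_surjective : Function.Surjective pr := Quotient.mk_surjective

theorem pr_smul (g : Gam) (x : X) : pr (g • x) = pr x := (pr_eq.2 ⟨g, rfl⟩).symm

/-- The map of `M` induced by multiplication by `v ^ m`. -/
def fm (m : ℤ) : M → M :=
  Quotient.lift (fun x => pr (mulv m x)) (by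
    rintro x y ⟨g, rfl⟩
    change pr (mulv m (g • y)) = pr (mulv m y)
    rw [mulv_smul, pr_smul])

@[simp] theorem fm_pr (m : ℤ) (x : X) : fm m (pr x) = pr (mulv m x) := rfl

/-! ### Real numbers attached to the units -/

/-- `|u₂|` -/
def U2 : ℝ := ‖(u : C3).2.1‖
/-- `|u₃|` -/
def U3 : ℝ := ‖(u : C3).2.2‖
/-- `|v₂|` -/
def V2 : ℝ := ‖(v : C3).2.1‖
/-- `|v₃|` -/
def V3 : ℝ := ‖(v : C3).2.2‖

/-- The exponent of `Im z` in the metric of the second coordinate. -/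
def al2 : ℝ := -Real.log U2 / Real.log U1
/-- The exponent of `Im z` in the metric of the third coordinate. -/
def al3 : ℝ := -Real.log U3 / Real.log U1

/-- The contraction factor. -/
def lam : ℝ := V1 ^ al2 * V2

end HolPH.OT
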