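import Pool.Agent.Helper49.OT.Statement
import Pool.Agent.Helper49.OT.Mfd
import Pool.Agent.Helper44.OT.Frame
import Pool.Agent.Helper77.OT.Lat2
import Pool.Agent.Helper8.OT.Trans
import Pool.Agent.Helper67.OT.Lift
import Pool.Agent.Helper88.OT.Key
import Pool.Agent.Helper10.OT.Ex2
import Pool.Agent.Helper51.OT.EX1
import Pool.Agent.Helper66.OT.Ex3
import Pool.Agent.Helper71.PH.PHY
import Pool.Agent.Helper42.PH.BND
import Pool.Agent.Helper25.PH.EX3b
import Pool.Agent.Helper84.PH.OTExcl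

/-!
# Final assembly for the Oeljeklaus–Toma threefold
-/

open scoped Manifold ContDiff Topology
open Set Filter

noncomputable section

namespace HolPH.OT

universe w

theorem partiallyHyperbolic_F :
    (∃ N : TangentBundle I3 M → ℝ, IsRiemannianNorm N) ∧
    ∀ N : TangentBundle I3 M → ℝ, IsRiemannianNorm N → IsPartiallyHyperbolic N F := by
  obtain ⟨L, hc, hs, hu, fc, fs, fu⟩ := exists_frame
  exact ph_of_frame_aux F L (fun N G hN hG h1 h2 h3 => bound N G hN hG h1 h2 h3) hc hs hu lam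
    lam_pos lam_lt_one fc fs fu

theorem transitive_F : IsTopologicallyTransitive (F : M → M) :=
  fun U V hU hV hU' hV' => transitive U V hU hV hU' hV'

section
variable {M' : Type*} [TopologicalSpace M'] [ChartedSpace C3 M'] [IsManifold I3 ω M']
  {p : M' → M}

theorem torus_const [ConnectedSpace M'] (hp : IsFiniteCover p) (Λ : Submodule ℤ C2)
    (hΛ : DiscreteTopology Λ) (P : M' → C2 ⧸ Λ) (hP : IsHolomorphicToTorus Λ P) (x y : M') :
    P x = P y := by
  refine holomorphic_to_torus_const_of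
    (fun G hG d hd h => key_of_cover Lat_cover G hG d hd h) (fun z => ?_) Λ hΛ P hP x y
  obtain ⟨x₀, q, hqc, hpq, hq0⟩ := exists_lift hp z
  exact ⟨x₀, q, hqc, hq0, lift_localDiffeomorph hp hqc hpq, lift_period hp hqc hpq⟩

theorem not_overLinearAnosov [ConnectedSpace M'] (hp : IsFiniteCover p) (g : M' → M') :
    ¬ IsOverLinearAnosov g := by
  rintro ⟨Λ, hΛ, -, A, b, P, -, -, hP, hsurj, -⟩
  refine not_finite_quotient Λ hΛ ?_
  have hsub : Subsingleton (C2 ⧸ Λ) := by
    refine ⟨fun s t => ?_⟩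
    obtain ⟨x, rfl⟩ := hsurj s
    obtain ⟨y, rfl⟩ := hsurj t
    exact torus_const hp Λ hΛ P hP x y
  infer_instance

theorem not_timeMap [Nonempty M'] (hp : IsFiniteCover p) (g : M' → M') {n : ℕ} (hn : 1 ≤ n)
    (hg : ∀ y, p (g y) = (F : M → M)^[n] (p y)) : ¬ IsTimeMap g := by
  intro h
  obtain ⟨φ, φ0, φadd, φh, -, s, hs⟩ := h.exists_flow
  have hid : ∀ x, g x = x := by
    intro x
    rw [hs x]
    exact action_trivial_core pr_covering pr_localDiffeomorph Lat_cover hp φ φ0 φadd φh s x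
  obtain ⟨y⟩ := (inferInstance : Nonempty M')
  obtain ⟨x, hx⟩ := pr_surjective (p y)
  have h1 := hg y
  rw [hid y, ← hx, F_iterate] at h1
  obtain ⟨γ, hγ⟩ := pr_eq.1 h1
  have h2 := smul_im γ x
  rw [hγ] at h2
  have h3 := affine_im (n : ℤ) 0 (x : C3) (zero_mem Lat)
  rw [zpow_zero, Units.val_one, mul_one, zpow_zero, mul_one, add_zero, ← mulv_coe, h2] at h3
  have hx0 : ((x : C3).1.im) ≠ 0 := (mem_X.1 x.2).ne'
  have h4 := V1_zpow_ne (mul_right_cancel₀ hx0 h3).symm
  omega

end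

theorem noLiftIsAlgebraic_F : NoLiftIsAlgebraic.{w} (F : M → M) := by
  intro n hn M' _ _ _ _ _ _ p hp g hg
  exact ⟨not_torus_of pr_covering pr_localDiffeomorph hp, not_overLinearAnosov hp g,
    not_timeMap hp g hn hg⟩

end HolPH.OT
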