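import Pool.Agent.Helper49.OT.Defs

/-!
# The action of `Γ` on `ℍ × ℂ × ℂ` is free and properly discontinuous
-/

open scoped Manifold ContDiff Topology
open Set Filter

noncomputable section

namespace HolPH.OT

theorem one_lt_U1' : 1 < U1 := by
  have := rho_pos
  unfold U1
  have h1 : 0 < rho + rho ^ 2 + rho ^ 3 + rho ^ 4 := by positivity
  linarith

theorem smul_im (g : Gam) (x : X) : ((g • x : X) : C3).1.im = U1 ^ g.n * (x : C3).1.im := by
  have h := affine_im 0 g.n (x : C3) g.a.2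
  rw [zpow_zero, Units.val_one, one_mul, zpow_zero, one_mul] at h
  rw [smul_coe, h]

theorem U1_zpow_inj {m n : ℤ} (h : U1 ^ m = U1 ^ n) : m = n :=
  zpow_right_injective₀ U1_pos one_lt_U1'.ne' h

instance instCancel : IsCancelSMul Gam X where
  right_cancel' g h x hgh := by
    have h1 := smul_im g x
    have h2 := smul_im h x
    rw [hgh, h2] at h1
    have hx : ((x : C3).1.im) ≠ 0 := (mem_X.1 x.2).ne'
    have h3 : h.n = g.n := U1_zpow_inj (mul_right_cancel₀ hx h1)
    refine Gam.ext' h3.symm ?_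
    have h4 := congrArg (fun y : X => (y : C3)) hgh
    simp only [smul_coe, h3] at h4
    exact add_left_cancel h4

/-- The set of exponents in a compact interval is finite. -/
theorem finite_zpow {c C : ℝ} (hc : 0 < c) : {n : ℤ | c ≤ U1 ^ n ∧ U1 ^ n ≤ C}.Finite := by
  obtain ⟨N, hN⟩ := pow_unbounded_of_one_lt C one_lt_U1'
  obtain ⟨N', hN'⟩ := pow_unbounded_of_one_lt c⁻¹ one_lt_U1'
  refine (Set.finite_Ioo (-(N' : ℤ)) (N : ℤ)).subset ?_
  rintro n ⟨h1, h2⟩
  constructor
  · by_contra h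
    have h3 : U1 ^ n ≤ U1 ^ (-(N' : ℤ)) := zpow_le_zpow_right₀ one_lt_U1'.le (not_lt.1 h)
    rw [zpow_neg, zpow_natCast] at h3
    have h4 : (U1 ^ N')⁻¹ < c := by
      rw [inv_lt_comm₀ (pow_pos U1_pos _) hc]
      exact hN'
    linarith
  · by_contra h
    have h3 : U1 ^ (N : ℤ) ≤ U1 ^ n := zpow_le_zpow_right₀ one_lt_U1'.le (not_lt.1 h)
    rw [zpow_natCast] at h3
    linarith

theorem properlyDiscontinuous
    (hfin : ∀ R : ℝ, {x : C3 | x ∈ Lat ∧ ‖x‖ ≤ R}.Finite) : ProperlyDiscontinuousSMul Gam X where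
  finite_disjoint_inter_image := by
    intro K L hK hL
    have hy : Continuous fun x : X => (x : C3).1.im :=
      Complex.continuous_im.comp (continuous_fst.comp continuous_subtype_val)
    have hnorm : Continuous fun x : X => ‖(x : C3)‖ := continuous_subtype_val.norm
    rcases K.eq_empty_or_nonempty with hKe | hKne
    · subst hKe; simp
    rcases L.eq_empty_or_nonempty with hLe | hLne
    · subst hLe; simp
    obtain ⟨k1, hk1, hk1'⟩ := hK.exists_isMinOn hKne hy.continuousOn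
    obtain ⟨k2, hk2, hk2'⟩ := hK.exists_isMaxOn hKne hy.continuousOn
    obtain ⟨l1, hl1, hl1'⟩ := hL.exists_isMinOn hLne hy.continuousOn
    obtain ⟨l2, hl2, hl2'⟩ := hL.exists_isMaxOn hLne hy.continuousOn
    obtain ⟨k3, hk3, hk3'⟩ := hK.exists_isMaxOn hKne hnorm.continuousOn
    obtain ⟨l3, hl3, hl3'⟩ := hL.exists_isMaxOn hLne hnorm.continuousOn
    have hp1 : 0 < (k1 : C3).1.im := mem_X.1 k1.2
    have hp2 : 0 < (k2 : C3).1.im := mem_X.1 k2.2
    have hq1 : 0 < (l1 : C3).1.im := mem_X.1 l1.2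
    set c := (l1 : C3).1.im / (k2 : C3).1.im with hc
    set C := (l2 : C3).1.im / (k1 : C3).1.im with hC
    have hcp : 0 < c := div_pos hq1 hp2
    let R : ℤ → ℝ := fun n => ‖(l3 : C3)‖ + ‖((u ^ n : C3ˣ) : C3)‖ * ‖(k3 : C3)‖
    have hfin' : ∀ n : ℤ, ((fun a : Lat => (⟨n, a⟩ : Gam)) '' {a : Lat | ‖(a : C3)‖ ≤ R n}).Finite := by
      intro n
      refine Set.Finite.image _ ?_
      have h1 := (hfin (R n)).preimage (f := fun a : Lat => (a : C3))
        (Subtype.val_injective.injOn)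
      refine h1.subset ?_
      intro a ha
      exact ⟨a.2, ha⟩
    refine ((finite_zpow (C := C) hcp).biUnion fun n _ => hfin' n).subset ?_
    rintro g ⟨_, ⟨x, hx, rfl⟩, hgx⟩
    have hgx' : g • x ∈ L := hgx
    have hyx := smul_im g x
    have hx0 : 0 < (x : C3).1.im := mem_X.1 x.2
    have e1 : (x : C3).1.im ≤ (k2 : C3).1.im := hk2' hx
    have e2 : (k1 : C3).1.im ≤ (x : C3).1.im := hk1' hx
    have e3 : (l1 : C3).1.im ≤ ((g • x : X) : C3).1.im := hl1' hgx'
    have e4 : ((g • x : X) : C3).1.im ≤ (l2 : C3).1.im := hl2' hgx'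
    rw [hyx] at e3 e4
    have hpw : 0 < U1 ^ g.n := zpow_pos U1_pos _
    simp only [mem_iUnion, mem_setOf_eq, mem_image]
    refine ⟨g.n, ⟨?_, ?_⟩, g.a, ?_, rfl⟩
    · rw [hc, div_le_iff₀ hp2]
      exact e3.trans (mul_le_mul_of_nonneg_left e1 hpw.le)
    · rw [hC, le_div_iff₀ hp1]
      exact (mul_le_mul_of_nonneg_left e2 hpw.le).trans e4
    · have h1 : (g.a : C3) = ((g • x : X) : C3) - ((u ^ g.n : C3ˣ) : C3) * x := by
        rw [smul_coe]; ring
      rw [h1]
      refine (norm_sub_le _ _).trans (add_le_add (hl3' hgx') ((norm_mul_le _ _).trans ?_))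
      exact mul_le_mul_of_nonneg_left (hk3' hx) (norm_nonneg _)

end HolPH.OT
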