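import Pool.Agent.Helper84.PH.Defs

/-!
# The transitive form of the negative answer
-/

open scoped Manifold ContDiff Topology
open Set Filter

noncomputable section

namespace HolPH

universe u

/-- `f` is topologically transitive: for nonempty open sets `U`, `V` some iterate `f^n`, `n ≥ 1`,
maps a point of `U` into `V`. -/
def IsTopologicallyTransitive {M : Type*} [TopologicalSpace M] (f : M → M) : Prop :=
  ∀ U V : Set M, IsOpen U → IsOpen V → U.Nonempty → V.Nonempty →
    ∃ n : ℕ, 1 ≤ n ∧ ((f^[n] '' U) ∩ V).Nonempty

section

variable {M : Type*} [TopologicalSpace M] [ChartedSpace C3 M]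

/-- No lift `g` of an iterate `f^n`, `n ≥ 1`, to a finite unbranched holomorphic cover `M'` of `M`
by a compact connected complex threefold is of one of the three types: `M'` is not a complex torus
(so `g` is not conjugate to a linear automorphism of one), `g` is not semiconjugate, by a
holomorphic map of `M'` onto a complex `2`-torus, to a linear Anosov automorphism (so `g` is not a
holomorphic skew product over a linear Anosov automorphism), and `g` is not a time-`t` map of a
holomorphic action of `ℂ^*` (so it is not the time-`t` map of a holomorphic Anosov flow). -/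
def NoLiftIsAlgebraic (f : M → M) : Prop :=
  ∀ (n : ℕ), 1 ≤ n →
    ∀ (M' : Type u) [TopologicalSpace M'] [ChartedSpace C3 M'] [IsManifold I3 ω M']
      [T2Space M'] [CompactSpace M'] [ConnectedSpace M'] (p : M' → M),
      IsFiniteCover p → ∀ g : M' ≃ₘ^ω⟮I3, I3⟯ M', (∀ y, p (g y) = f^[n] (p y)) →
        ¬ IsComplexTorus M' ∧ ¬ IsOverLinearAnosov g ∧ ¬ IsTimeMap g

end

end HolPH
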